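import Pool.Agent.L7h8.DD.Defs
import Pool.Agent.Helper270.WPB

/-!
# MP_d40431_gt: the theorem of Novikov and Boone, proved (from `Helper270.WP.word_problem`)
-/

namespace Pool.Agent.L7h53.DD

open Pool.Agent.L7h8.DD

/-- The theorem of Novikov and Boone. -/
theorem novikovBoone : NovikovBoone := by
  classical
  obtain ⟨m, R, W, hW, hn⟩ := Pool.Agent.Helper270.WP.word_problem
  refine ⟨m, R.toList.map FreeGroup.toWord, fun hc => hn ?_⟩
  have hs : {g : FreeGroup (Fin m) | ∃ r ∈ R.toList.map FreeGroup.toWord, g = FreeGroup.mk r} =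
      (R : Set (FreeGroup (Fin m))) := by
    ext g
    constructor
    · rintro ⟨r, hr, rfl⟩
      obtain ⟨q, hq, rfl⟩ := List.mem_map.mp hr
      rw [FreeGroup.mk_toWord]
      exact Finset.mem_toList.mp hq
    · intro hg
      exact ⟨g.toWord, List.mem_map.mpr ⟨g, Finset.mem_toList.mpr hg, rfl⟩,
        (FreeGroup.mk_toWord).symm⟩
  rw [ComputablePred.computable_iff] at hc ⊢
  obtain ⟨f, hf, he⟩ := hc
  refine ⟨fun n => f (W n), hf.comp hW, ?_⟩
  funext n
  have h1 := congrFun he (W n)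
  rw [← h1]
  show (_ ∈ _) = (_ ∈ _)
  rw [hs]

end Pool.Agent.L7h53.DD
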